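import Mathlib
import Pool.Agent.Lib.MP_1a3405_co.Mid.Final
import Pool.Agent.Lib.MP_1a3405_co.Mid.Bound
import Pool.Agent.Lib.MP_1a3405_co.DimPlusOne
import Pool.Agent.Lib.MP_1a3405_co.Sn.Main
import Pool.Agent.Lib.MP_1a3405_co.Asym2

/-!
Two-sided bounds for the leading constant of the maximum percolation time of `r`-neighbour
bootstrap percolation on the grid `[n]^d` in the whole range `d < r < 2d`; they coincide, and so
give the constant, for `(d, r) = (2, 3)` and `(d, r) = (3, 4)`.
-/

namespace Pool.Agent.Results.MP_1a3405_co.MiddleRange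

open Pool.Agent.Lib.MP_1a3405_co Filter Topology

/-- For all `d < r < 2d` and all `n` one has
`L n^d - 14 d n^(d-1) √n ≤ M([n]^d, r) ≤ U n^d`, where `U` is the smaller one of `d / r` and
`d (d-1) / ((d+1) r - 3d)`, and `L = 1/2` if `r ≥ d + 2`, `L = 3/4` if `(d, r) = (3, 4)`, and
`L = 2/3` for the other pairs with `r = d + 1`. -/
theorem result (d r n : ℕ) (hdr : d < r) (hrd : r < 2 * d) :
    (if r = d + 1 then (if d = 3 then 3 / 4 else 2 / 3) else 1 / 2 : ℝ) * (n : ℝ) ^ d -
        14 * (d : ℝ) * (n : ℝ) ^ (d - 1) * Real.sqrt n ≤ (maxPercTime (grid d n) r : ℝ) ∧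
    (maxPercTime (grid d n) r : ℝ) ≤
      min ((d : ℝ) / r) ((d : ℝ) * ((d : ℝ) - 1) / (((d : ℝ) + 1) * r - 3 * d)) *
        (n : ℝ) ^ d := by
  have h34 := dimPlusOne 3 (by norm_num) (by norm_num)
  have hd2 : 2 ≤ d := by omega
  have hpow : (0 : ℝ) ≤ (n : ℝ) ^ d := by positivity
  constructor
  · split_ifs with h1 h2
    · subst h1
      subst h2
      obtain ⟨h1, h2⟩ := h34.1 n
      norm_num at h1 h2 ⊢
      have h0 : (0 : ℝ) ≤ (n : ℝ) ^ 2 * Real.sqrt n := by positivity
      nlinarith
    · subst h1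
      rcases Nat.lt_or_ge 2 d with h | h
      · exact Mid.lower_succ d n (by omega)
      · obtain rfl : d = 2 := by omega
        have h := lower2_sqrt n
        have h0 : (0 : ℝ) ≤ (n : ℝ) * Real.sqrt n := by positivity
        norm_num at h ⊢
        nlinarith
    · rcases Nat.lt_or_ge (r + 1) (2 * d) with h | h
      · exact Mid.lower_two d r n (by omega) (by omega)
      · obtain ⟨e, rfl⟩ : ∃ e, d = 3 + e := ⟨d - 3, by omega⟩
        obtain rfl : r = 2 * (3 + e) - 1 := by omega
        have h1 := Sn.lower_sqrt e n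
        have e1 : 2 + e + 1 = 3 + e := by ring
        rw [e1] at h1
        have e4 : 3 + e - 1 = 2 + e := by omega
        rw [e4]
        have h0 : (0 : ℝ) ≤ (n : ℝ) ^ (2 + e) * Real.sqrt n := by positivity
        have he : (0 : ℝ) ≤ (e : ℝ) := by positivity
        have hes : 0 ≤ (e : ℝ) * ((n : ℝ) ^ (2 + e) * Real.sqrt n) := mul_nonneg he h0
        push_cast at h1 ⊢
        linarith
  · have hr0 : (0 : ℝ) < r := by
      have : 0 < r := by omega
      exact_mod_cast this
    have hden : (0 : ℝ) < ((d : ℝ) + 1) * r - 3 * d := by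
      have h1 : (d : ℝ) + 1 ≤ r := by exact_mod_cast hdr
      have h2 : (2 : ℝ) ≤ d := by exact_mod_cast hd2
      nlinarith
    rw [min_mul_of_nonneg _ _ hpow]
    refine le_min ?_ ?_
    · have h := mul_maxPercTime_le d n r
      have h' : (r : ℝ) * (maxPercTime (grid d n) r : ℝ) ≤ d * (n : ℝ) ^ d := by
        exact_mod_cast h
      rw [div_mul_eq_mul_div, le_div_iff₀ hr0]
      linarith
    · have h := Mid.upper_mid hd2 r n
      have h' : (((d : ℝ) + 1) * r - 3 * d) * (maxPercTime (grid d n) r : ℝ) ≤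
          (d : ℝ) * ((d : ℝ) - 1) * (n : ℝ) ^ d := by exact_mod_cast h
      rw [div_mul_eq_mul_div, le_div_iff₀ hden]
      linarith

end Pool.Agent.Results.MP_1a3405_co.MiddleRange
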