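import Pool.Agent.Lib.MP_1a3405_co.RTwoGrid

/-!
The maximum percolation time of two-neighbour bootstrap percolation on the grid `[n]^d`, for
every dimension `d ≥ 2`: it is `((d-1)(6d+1)/18) n²` up to an explicit error of order `n`.
-/

namespace Pool.Agent.Results.MP_1a3405_co.RTwoAllDims

open Pool.Agent.Lib.MP_1a3405_co Pool.Agent.Lib.MP_1a3405_co.RTwo Filter Topology

/-- For every `d ≥ 2` and every `n`, with `c = (d-1)(6d+1)/18`,
`c n² - 26 c n ≤ M([n]^d, 2) ≤ c n² + 60 d n`, and hence `M([n]^d, 2) / n² → c`. -/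
theorem result (d : ℕ) (hd : 2 ≤ d) :
    (∀ n : ℕ,
      ((d : ℝ) - 1) * (6 * d + 1) / 18 * (n : ℝ) ^ 2
          - 26 * (((d : ℝ) - 1) * (6 * d + 1) / 18) * n ≤ (maxPercTime (grid d n) 2 : ℝ) ∧
      (maxPercTime (grid d n) 2 : ℝ) ≤
        ((d : ℝ) - 1) * (6 * d + 1) / 18 * (n : ℝ) ^ 2 + 60 * d * n) ∧
    Tendsto (fun n : ℕ => (maxPercTime (grid d n) 2 : ℝ) / (n : ℝ) ^ 2) atTop
      (𝓝 (((d : ℝ) - 1) * (6 * d + 1) / 18)) := by
  refine ⟨fun n => ⟨grid_lower hd n, grid_upper hd n⟩, ?_⟩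
  have hd2 : (2 : ℝ) ≤ d := by exact_mod_cast hd
  have hc : 0 ≤ ((d : ℝ) - 1) * (6 * d + 1) / 18 := by
    apply div_nonneg _ (by norm_num)
    exact mul_nonneg (by linarith) (by linarith)
  set c : ℝ := ((d : ℝ) - 1) * (6 * d + 1) / 18 with hcdef
  have hmain : ∀ n : ℕ, |(maxPercTime (grid d n) 2 : ℝ) - c * (n : ℝ) ^ 2| ≤
      (26 * c + 60 * d) * n := by
    intro n
    have h1 := grid_lower hd n
    have h2 := grid_upper hd n
    rw [← hcdef] at h1 h2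
    have hn : (0 : ℝ) ≤ n := Nat.cast_nonneg n
    rw [abs_le]
    constructor
    · nlinarith [mul_nonneg (by linarith : (0 : ℝ) ≤ 60 * d) hn]
    · nlinarith [mul_nonneg hc hn]
  have hlim : Tendsto (fun n : ℕ => (26 * c + 60 * d) / (n : ℝ)) atTop (𝓝 0) :=
    tendsto_const_div_atTop_nhds_zero_nat _
  rw [tendsto_iff_norm_sub_tendsto_zero]
  refine squeeze_zero' (Eventually.of_forall fun n => norm_nonneg _) ?_ hlim
  filter_upwards [eventually_gt_atTop 0] with n hn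
  have hn' : (0 : ℝ) < n := by exact_mod_cast hn
  have e : (maxPercTime (grid d n) 2 : ℝ) / (n : ℝ) ^ 2 - c =
      ((maxPercTime (grid d n) 2 : ℝ) - c * (n : ℝ) ^ 2) / (n : ℝ) ^ 2 := by
    field_simp
  rw [e, Real.norm_eq_abs, abs_div, abs_of_pos (by positivity : (0 : ℝ) < (n : ℝ) ^ 2),
    div_le_div_iff₀ (by positivity) hn']
  have := mul_le_mul_of_nonneg_right (hmain n) hn'.le
  calc |(maxPercTime (grid d n) 2 : ℝ) - c * (n : ℝ) ^ 2| * n ≤ (26 * c + 60 * d) * n * n := this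
    _ = (26 * c + 60 * d) * (n : ℝ) ^ 2 := by ring

end Pool.Agent.Results.MP_1a3405_co.RTwoAllDims
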