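import Mathlib
import Pool.Agent.Lib.MP_1a3405_co.ExactAll

/-!
The leading-order asymptotics of the maximum percolation time of `r`-neighbour bootstrap
percolation on the grid `[n]^d`, for all pairs `3 ≤ r ≤ d`:
`M([n]^d, r) = ((r - 1)/(2d - r - 1) + o(1)) n^d`.
-/

namespace Pool.Agent.Results.MP_1a3405_co.ThreeToDimension

open Pool.Agent.Lib.MP_1a3405_co Filter Topology

/-- For all `3 ≤ r ≤ d`: `M([n]^d, r) / n^d → (r - 1)/(2d - r - 1)`, with the explicit upper bound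
`(2d - r - 1) M([n]^d, r) ≤ (r - 1) n^d + 2 d n^(d-1)` for every `n`, and for `r = d` with the
explicit lower bound `n^d - (4d + 3) n^(d-1) ≤ M([n]^d, d)`. -/
theorem result (d r : ℕ) (hr : 3 ≤ r) (hrd : r ≤ d) :
    Tendsto (fun n : ℕ => (maxPercTime (grid d n) r : ℝ) / (n : ℝ) ^ d) atTop
      (𝓝 (((r : ℝ) - 1) / (2 * (d : ℝ) - r - 1))) ∧
    (∀ n : ℕ, (2 * (d : ℝ) - r - 1) * (maxPercTime (grid d n) r : ℝ) ≤
      ((r : ℝ) - 1) * (n : ℝ) ^ d + 2 * (d : ℝ) * (n : ℝ) ^ (d - 1)) ∧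
    (r = d → ∀ n : ℕ, (n : ℝ) ^ d - (4 * (d : ℝ) + 3) * (n : ℝ) ^ (d - 1) ≤
      (maxPercTime (grid d n) r : ℝ)) := by
  refine ⟨Exact.tendsto_all hr hrd, fun n => Exact.upper_all hr hrd n, ?_⟩
  rintro rfl n
  exact (Diag.diag r hr n).1

end Pool.Agent.Results.MP_1a3405_co.ThreeToDimension
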