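import Mathlib
import Pool.Agent.Lib.MP_1a3405_co.Sn.Main
import Pool.Agent.Lib.MP_1a3405_co.Asym2

/-!
The leading-order asymptotics of the maximum percolation time of `(2d-1)`-neighbour bootstrap
percolation on the grid `[n]^d`: it is `(1/2 + o(1)) n^d` for every `d ≥ 4`.
-/

namespace Pool.Agent.Results.MP_1a3405_co.TwoDMinusOne

open Pool.Agent.Lib.MP_1a3405_co Filter Topology

/-- For every `d ≥ 4` and every `n` one has
`n^d / 2 - 6 d n^(d-1) √n ≤ M([n]^d, 2d-1) ≤ n^d / 2 + (15 / 2) n^(d-1)`. Hence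
`M([n]^d, 2d-1) / n^d` tends to `1/2`. -/
theorem result (d : ℕ) (hd : 4 ≤ d) :
    (∀ n : ℕ,
      (n : ℝ) ^ d / 2 - 6 * (d : ℝ) * (n : ℝ) ^ (d - 1) * Real.sqrt n ≤
        (maxPercTime (grid d n) (2 * d - 1) : ℝ) ∧
      (maxPercTime (grid d n) (2 * d - 1) : ℝ) ≤
        (n : ℝ) ^ d / 2 + 15 / 2 * (n : ℝ) ^ (d - 1)) ∧
    Tendsto (fun n : ℕ => (maxPercTime (grid d n) (2 * d - 1) : ℝ) / (n : ℝ) ^ d) atTop
      (𝓝 (1 / 2)) := by
  have hlow : ∀ n : ℕ,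
      (n : ℝ) ^ d / 2 - 6 * (d : ℝ) * (n : ℝ) ^ (d - 1) * Real.sqrt n ≤
        (maxPercTime (grid d n) (2 * d - 1) : ℝ) := by
    intro n
    obtain ⟨e, rfl⟩ : ∃ e, d = 3 + e := ⟨d - 3, by omega⟩
    have h1 := Sn.lower_sqrt e n
    have e1 : 2 + e + 1 = 3 + e := by ring
    rw [e1] at h1
    have e4 : 3 + e - 1 = 2 + e := by omega
    rw [e4]
    have h0 : (0 : ℝ) ≤ (n : ℝ) ^ (2 + e) * Real.sqrt n := by positivity
    have he : (0 : ℝ) ≤ (e : ℝ) := by positivity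
    have hes : 0 ≤ (e : ℝ) * ((n : ℝ) ^ (2 + e) * Real.sqrt n) := mul_nonneg he h0
    push_cast at h1 ⊢
    linarith
  have hup : ∀ n : ℕ,
      (maxPercTime (grid d n) (2 * d - 1) : ℝ) ≤
        (n : ℝ) ^ d / 2 + 15 / 2 * (n : ℝ) ^ (d - 1) := by
    intro n
    obtain ⟨e, rfl⟩ : ∃ e, d = 4 + e := ⟨d - 4, by omega⟩
    have h2 := Sn.upper_sqrt e n
    have e4 : 4 + e - 1 = 3 + e := by omega
    rw [e4]
    exact h2
  refine ⟨fun n => ⟨hlow n, hup n⟩, ?_⟩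
  have hi : Tendsto (fun n : ℕ => (Real.sqrt n)⁻¹) atTop (𝓝 0) :=
    tendsto_inv_atTop_zero.comp (Real.tendsto_sqrt_atTop.comp tendsto_natCast_atTop_atTop)
  have hj : Tendsto (fun n : ℕ => ((n : ℝ))⁻¹) atTop (𝓝 0) :=
    tendsto_inv_atTop_zero.comp tendsto_natCast_atTop_atTop
  have hlim1 : Tendsto (fun n : ℕ => 1 / 2 - 6 * (d : ℝ) * (Real.sqrt n)⁻¹) atTop
      (𝓝 (1 / 2)) := by
    have h2 := (hi.const_mul (6 * (d : ℝ))).const_sub (1 / 2)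
    simpa using h2
  have hlim2 : Tendsto (fun n : ℕ => 1 / 2 + 15 / 2 * ((n : ℝ))⁻¹) atTop (𝓝 (1 / 2)) := by
    have h2 := (hj.const_mul (15 / 2)).const_add (1 / 2)
    simpa using h2
  obtain ⟨k, rfl⟩ : ∃ k, d = k + 1 := ⟨d - 1, by omega⟩
  refine tendsto_of_tendsto_of_tendsto_of_le_of_le' hlim1 hlim2 ?_ ?_
  · filter_upwards [eventually_gt_atTop 0] with n hn
    have hn0 : (0 : ℝ) < n := by exact_mod_cast hn
    have hs : 0 < Real.sqrt n := Real.sqrt_pos.2 hn0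
    have hss : Real.sqrt n * Real.sqrt n = n := Real.mul_self_sqrt hn0.le
    have h3 : (Real.sqrt n)⁻¹ * (n : ℝ) = Real.sqrt n := by
      rw [inv_mul_eq_iff_eq_mul₀ (ne_of_gt hs)]
      exact hss.symm
    rw [le_div_iff₀ (by positivity)]
    refine le_trans (le_of_eq ?_) (hlow n)
    rw [Nat.add_sub_cancel]
    calc (1 / 2 - 6 * ((k + 1 : ℕ) : ℝ) * (Real.sqrt n)⁻¹) * (n : ℝ) ^ (k + 1)
        = (n : ℝ) ^ (k + 1) / 2 -
          6 * ((k + 1 : ℕ) : ℝ) * (n : ℝ) ^ k * ((Real.sqrt n)⁻¹ * n) := by ring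
      _ = _ := by rw [h3]
  · filter_upwards [eventually_gt_atTop 0] with n hn
    have hn0 : (0 : ℝ) < n := by exact_mod_cast hn
    rw [div_le_iff₀ (by positivity)]
    refine (hup n).trans (le_of_eq ?_)
    rw [Nat.add_sub_cancel, pow_succ]
    field_simp

end Pool.Agent.Results.MP_1a3405_co.TwoDMinusOne
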